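import Mathlib
import Pool.Agent.H365R3.TorusG

set_option autoImplicit false

open scoped Manifold ContDiff Topology
open Set Filter

namespace Pool.Agent.Results.MP_95f3db_an.NontrivialCentralizersDense

open Pool.Agent.H365R3

section

variable {E : Type} [NormedAddCommGroup E] [NormedSpace ℝ E] {H : Type} [TopologicalSpace H]

/-- Q1 for the manifold `M`: there is a relatively open and dense subset of `OSet` all of whose
elements have trivial centralizer. -/
def OpenDenseTrivial (I : ModelWithCorners ℝ E H) (M : Type) [TopologicalSpace M]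
    [ChartedSpace H M] [IsManifold I 1 M] : Prop :=
  ∃ U : Set (M ≃ₘ^1⟮I, I⟯ M), (∃ W, IsOpen W ∧ U = OSet I M ∩ W) ∧ OSet I M ⊆ closure U ∧
    ∀ f ∈ U, TrivialCentralizer f

/-- The negated form for the manifold `M`: there is a nonempty relatively open subset of `OSet`
in which the diffeomorphisms with nontrivial centralizer are dense. -/
def LocallyDenseNontrivial (I : ModelWithCorners ℝ E H) (M : Type) [TopologicalSpace M]
    [ChartedSpace H M] [IsManifold I 1 M] : Prop :=
  ∃ V : Set (M ≃ₘ^1⟮I, I⟯ M), V.Nonempty ∧ (∃ W, IsOpen W ∧ V = OSet I M ∩ W) ∧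
    V ⊆ closure {f | f ∈ V ∧ ¬ TrivialCentralizer f}

end

/-- There is a compact connected smooth manifold `M` without boundary, of dimension `3` (namely
the three-torus), such that, with `OSet` the set of `C¹` Axiom A diffeomorphisms of `M` without
cycles and the `C¹` topology on `Diff¹(M)`: there is a nonempty relatively open subset of `OSet`
in which the diffeomorphisms with nontrivial centralizer are dense, and no relatively open and
dense subset of `OSet` consists of diffeomorphisms with trivial centralizer. -/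
theorem result :
    ∃ (E : Type) (_ : NormedAddCommGroup E) (_ : NormedSpace ℝ E) (_ : FiniteDimensional ℝ E)
      (H : Type) (_ : TopologicalSpace H) (I : ModelWithCorners ℝ E H) (_ : I.Boundaryless)
      (M : Type) (_ : TopologicalSpace M) (_ : ChartedSpace H M) (_ : IsManifold I ∞ M)
      (_ : IsManifold I 1 M) (_ : CompactSpace M) (_ : T2Space M) (_ : ConnectedSpace M),
      Module.finrank ℝ E = 3 ∧ Nonempty (M ≃ₜ Circle × Circle × Circle) ∧
        LocallyDenseNontrivial I M ∧ ¬ OpenDenseTrivial I M := by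
  have hlc : LocallyConnectedSpace (ModelProd (EuclideanSpace ℝ (Fin 1))
      (ModelProd (EuclideanSpace ℝ (Fin 1)) (EuclideanSpace ℝ (Fin 1)))) :=
    inferInstanceAs (LocallyConnectedSpace EE)
  have hfd : FiniteDimensional ℝ EE := inferInstance
  have hne : (cht pp).ψ 0 ≠ (cht 0).ψ 0 := by
    intro h
    have h1 := congrArg V1 h
    rw [ψ_eq, ψ_eq, add_zero, add_zero, V1_E3, V1_E3] at h1
    simp only [pp, Prod.fst_zero, Real.cos_pi, Real.cos_zero] at h1
    norm_num at h1
  have hO : f1 ∈ OSet I3 T3 := ⟨f1_axiomA, f1_noCycles⟩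
  have key := criterion (F := ℝ × ℝ × ℝ) sinkP sinkQ hne y0 fwd bwd (1 / 1000) (by norm_num)
    near_align
  obtain ⟨W, hW, hWo, hfW⟩ := mem_nhds_iff.1 key
  have hdense : ∀ g ∈ OSet I3 T3 ∩ W, g ∈ closure {f | f ∈ OSet I3 T3 ∩ W ∧
      ¬ TrivialCentralizer f} := by
    intro g hg
    rw [mem_closure_iff_nhds]
    intro N hN
    obtain ⟨g', hg', h1, h2⟩ := hW hg.2 hg.1 (N ∩ W) (inter_mem hN (hWo.mem_nhds hg.2))
    exact ⟨g', hg'.1, ⟨h1, hg'.2⟩, h2⟩
  refine ⟨EE, inferInstance, inferInstance, inferInstance, _, inferInstance, I3, inferInstance,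
    T3, inferInstance, inferInstance, inferInstance, inferInstance, inferInstance, inferInstance,
    inferInstance, ?_, ⟨Homeomorph.refl _⟩,
    ⟨OSet I3 T3 ∩ W, ⟨f1, hO, hfW⟩, ⟨W, hWo, rfl⟩, hdense⟩, ?_⟩
  · simp [EE]
  · rintro ⟨U, ⟨W', hW', rfl⟩, hdenseU, htriv⟩
    obtain ⟨g, hgW, hg⟩ := mem_closure_iff_nhds.1 (hdenseU hO) W (hWo.mem_nhds hfW)
    obtain ⟨g', hg', h1, h2⟩ := hW hgW hg.1 W' (hW'.mem_nhds hg.2)
    exact h2 (htriv g' ⟨h1, hg'⟩)

end Pool.Agent.Results.MP_95f3db_an.NontrivialCentralizersDense
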